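import Pool.Agent.Helper71.HeeschPatch

open Set Metric

namespace Pool.Agent.Results.MP_270077_co.HeeschTwo

section Definitions

variable {E : Type*} [NormedAddCommGroup E] [NormedSpace ℝ E]

/-- A (compact) convex polygon: the convex hull of a finite set, with nonempty interior. -/
def IsConvexPolygon (P : Set E) : Prop :=
  (∃ s : Set E, s.Finite ∧ P = convexHull ℝ s) ∧ (interior P).Nonempty

/-- `T` is a copy of `P`: the image of `P` under an isometry (reflections allowed). -/
def IsCopy (P T : Set E) : Prop := ∃ g : E ≃ᵢ E, T = g '' P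

/-- `Z` is a zone of copies of `P` around `⋃₀ U`, where `U` is the set of copies already used:
`Z` is a finite set of copies, they do not overlap each other nor any copy already used, each of them
has a point in common with `⋃₀ U`, and the new union is homeomorphic to a closed disk and contains
`⋃₀ U` in its interior. -/
structure IsZone (P : Set E) (U Z : Set (Set E)) : Prop where
  finite : Z.Finite
  copies : ∀ T ∈ Z, IsCopy P T
  nonoverlap : ∀ T ∈ Z, ∀ T' ∈ Z, T ≠ T' → Disjoint (interior T) (interior T')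
  nonoverlap_used : ∀ T ∈ Z, ∀ T' ∈ U, Disjoint (interior T) (interior T')
  touches : ∀ T ∈ Z, (T ∩ ⋃₀ U).Nonempty
  disk : Nonempty ((⋃₀ (U ∪ Z) : Set E) ≃ₜ closedBall (0 : E) 1)
  surrounds : ⋃₀ U ⊆ interior (⋃₀ (U ∪ Z))

/-- `Built P r U`: `U` is the set of all copies used after building `r` successive zones,
starting from `P` itself. -/
inductive Built (P : Set E) : ℕ → Set (Set E) → Prop
  | zero : Built P 0 {P}
  | succ {r : ℕ} {U Z : Set (Set E)} : Built P r U → IsZone P U Z → Built P (r + 1) (U ∪ Z)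

/-- `P` can be surrounded by `r` successive zones. -/
def CanBeSurrounded (P : Set E) (r : ℕ) : Prop := ∃ U, Built P r U

end Definitions

/-- The set `R` of the problem: positive integers `r` such that some convex polygon of the Euclidean
plane can be surrounded by `r` but not by `r + 1` successive zones. -/
def R : Set ℕ :=
  {r | 0 < r ∧ ∃ P : Set (EuclideanSpace ℝ (Fin 2)),
    IsConvexPolygon P ∧ CanBeSurrounded P r ∧ ¬ CanBeSurrounded P (r + 1)}

section Transport

variable {E F : Type*} [NormedAddCommGroup E] [NormedSpace ℝ E] [NormedAddCommGroup F] [NormedSpace ℝ F]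

lemma int_image (e : E ≃ₗᵢ[ℝ] F) (S : Set E) : interior (e '' S) = e '' interior S :=
  (e.toHomeomorph.image_interior S).symm

lemma sUnion_img (e : E ≃ₗᵢ[ℝ] F) (U : Set (Set E)) :
    ⋃₀ ((fun T => e '' T) '' U) = e '' (⋃₀ U) := by
  rw [sUnion_image, sUnion_eq_biUnion, image_iUnion₂]

lemma IsZone.transport (e : E ≃ₗᵢ[ℝ] F) {P : Set E} {U Z : Set (Set E)} (h : IsZone P U Z) :
    IsZone (e '' P) ((fun T => e '' T) '' U) ((fun T => e '' T) '' Z) := by
  have hU : ⋃₀ ((fun T => e '' T) '' U ∪ (fun T => e '' T) '' Z) = e '' (⋃₀ (U ∪ Z)) := by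
    rw [← image_union, sUnion_img]
  refine ⟨h.finite.image _, ?_, ?_, ?_, ?_, ?_, ?_⟩
  · rintro _ ⟨T, hT, rfl⟩
    obtain ⟨g, hg⟩ := h.copies T hT
    refine ⟨(e.symm.toIsometryEquiv.trans g).trans e.toIsometryEquiv, ?_⟩
    subst hg
    ext x
    simp only [mem_image]
    constructor
    · rintro ⟨_, ⟨y, hy, rfl⟩, rfl⟩
      exact ⟨e y, ⟨y, hy, rfl⟩, by simp⟩
    · rintro ⟨_, ⟨y, hy, rfl⟩, rfl⟩
      exact ⟨g y, ⟨y, hy, rfl⟩, by simp⟩
  · rintro _ ⟨T, hT, rfl⟩ _ ⟨T', hT', rfl⟩ hne
    have hne' : T ≠ T' := fun h => hne (by rw [h])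
    simp only
    rw [int_image, int_image]
    exact (disjoint_image_iff e.injective).2 (h.nonoverlap T hT T' hT' hne')
  · rintro _ ⟨T, hT, rfl⟩ _ ⟨T', hT', rfl⟩
    simp only
    rw [int_image, int_image]
    exact (disjoint_image_iff e.injective).2 (h.nonoverlap_used T hT T' hT')
  · rintro _ ⟨T, hT, rfl⟩
    obtain ⟨x, hx, hx'⟩ := h.touches T hT
    exact ⟨e x, ⟨x, hx, rfl⟩, by rw [sUnion_img]; exact ⟨x, hx', rfl⟩⟩
  · obtain ⟨f⟩ := h.disk
    have hb : e '' closedBall (0 : E) 1 = closedBall (0 : F) 1 := by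
      rw [e.image_closedBall]; simp
    have f1 : (⋃₀ (U ∪ Z) : Set E) ≃ₜ (e '' (⋃₀ (U ∪ Z)) : Set F) := e.toHomeomorph.image _
    have f2 : (closedBall (0 : E) 1 : Set E) ≃ₜ (e '' closedBall (0 : E) 1 : Set F) := e.toHomeomorph.image _
    rw [hU, ← hb]
    exact ⟨(f1.symm.trans f).trans f2⟩
  · rw [hU, sUnion_img, int_image]
    exact image_mono h.surrounds

lemma Built.transport (e : E ≃ₗᵢ[ℝ] F) {P : Set E} {r : ℕ} {U : Set (Set E)} (h : Built P r U) :
    Built (e '' P) r ((fun T => e '' T) '' U) := by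
  induction h with
  | zero => rw [image_singleton]; exact Built.zero
  | succ _ hz ih => rw [image_union]; exact Built.succ ih (hz.transport e)

end Transport

section Main

open Pool.Agent.Helper71.Heesch

lemma good_of_built {r : ℕ} {U : Set (Set ℂ)} (h : Built Pent r U) : Good U := by
  induction h with
  | zero =>
    refine ⟨finite_singleton _, ?_, ?_⟩
    · rintro T rfl
      exact ⟨IsometryEquiv.refl ℂ, (refl_img _).symm⟩
    · rintro T rfl T' rfl hne
      exact absurd rfl hne
  | succ _ hz ih =>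
    refine ⟨ih.fin.union hz.finite, ?_, ?_⟩
    · rintro T (hT | hT)
      · exact ih.copy T hT
      · exact hz.copies T hT
    · rintro T (hT | hT) T' (hT' | hT') hne
      · exact ih.no T hT T' hT' hne
      · exact (hz.nonoverlap_used T' hT' T hT).symm
      · exact hz.nonoverlap_used T hT T' hT'
      · exact hz.nonoverlap T hT T' hT' hne

lemma zero_mem_Pent : (0 : ℂ) ∈ Pent := by
  rw [Pent_eq_Til]
  have := Til_real_mem (k := 0) (σ := true) (t := 0) (x := 0) (by simp) (by simpa using (len_pos 0).le)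
  simpa using this

theorem upper : ¬ CanBeSurrounded Pent 3 := by
  rintro ⟨U, hU⟩
  have G := good_of_built hU
  cases hU with
  | succ h2 z3 =>
    cases h2 with
    | succ h1 z2 =>
      cases h1 with
      | succ h0 z1 =>
        cases h0 with
        | zero =>
          refine no_three ⟨G, subset_union_left, subset_union_left, z2.surrounds, z3.surrounds⟩
            (Or.inl rfl) ?_
          have := z1.surrounds
          rw [sUnion_singleton] at this
          exact this zero_mem_Pent

/-- the first `n` tiles of the patch -/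
def Fam (n : ℕ) : Set (Set ℂ) := T '' Set.Iio n

lemma sUnion_Fam (n : ℕ) : ⋃₀ Fam n = A n := by
  ext z
  simp [Fam, A]

lemma Fam_union {m n : ℕ} (h : m ≤ n) : Fam m ∪ T '' Set.Ico m n = Fam n := by
  unfold Fam
  rw [← image_union, Iio_union_Ico_eq_Iio h]

lemma zone {m n : ℕ} (hmn : m ≤ n) (hn : n ≤ 21) (ht : ∀ i, m ≤ i → i < n → (T i ∩ A m).Nonempty)
    (hd : Nonempty ((A n : Set ℂ) ≃ₜ closedBall (0 : ℂ) 1)) (hs : A m ⊆ interior (A n)) :
    IsZone Pent (Fam m) (T '' Set.Ico m n) := by
  refine ⟨(finite_Ico m n).image _, ?_, ?_, ?_, ?_, ?_, ?_⟩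
  · rintro _ ⟨i, hi, rfl⟩
    exact T_copy (lt_of_lt_of_le hi.2 hn)
  · rintro _ ⟨i, hi, rfl⟩ _ ⟨j, hj, rfl⟩ hne
    exact T_disj (lt_of_lt_of_le hi.2 hn) (lt_of_lt_of_le hj.2 hn) (fun h => hne (by rw [h]))
  · rintro _ ⟨i, hi, rfl⟩ _ ⟨j, hj, rfl⟩
    have hj' : j < m := hj
    exact T_disj (lt_of_lt_of_le hi.2 hn) (lt_of_lt_of_le (lt_of_lt_of_le hj' hmn) hn)
      (fun h => by have := hi.1; omega)
  · rintro _ ⟨i, hi, rfl⟩
    rw [sUnion_Fam]
    exact ht i hi.1 hi.2
  · rw [Fam_union hmn, sUnion_Fam]; exact hd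
  · rw [Fam_union hmn, sUnion_Fam, sUnion_Fam]; exact hs

theorem lower : CanBeSurrounded Pent 2 := by
  have h0 : Built Pent 0 (Fam 1) := by
    have : Fam 1 = {Pent} := by
      have e : Set.Iio 1 = ({0} : Set ℕ) := by ext x; simp
      unfold Fam
      rw [e, image_singleton, T_zero]
    rw [this]; exact Built.zero
  have hA1 : A 1 = T 0 := by
    ext z
    constructor
    · rintro ⟨i, hi, hz⟩
      have : i = 0 := by omega
      rw [this] at hz; exact hz
    · intro hz
      exact ⟨0, by norm_num, hz⟩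
  have z1 : IsZone Pent (Fam 1) (T '' Set.Ico 1 8) := by
    refine zone (by norm_num) (by norm_num) ?_ disk8 (by rw [hA1]; exact int8)
    intro i _ hi
    obtain ⟨j, hj, hj', hne⟩ := T_touch (i := i) (by omega)
    rw [hj' hi] at hne
    rw [hA1]; exact hne
  have z2 : IsZone Pent (Fam 8) (T '' Set.Ico 8 21) := by
    refine zone (by norm_num) (by norm_num) ?_ disk21 int21
    intro i _ hi
    obtain ⟨j, hj, hj', z, hz, hz'⟩ := T_touch (i := i) (by omega)
    exact ⟨z, hz, j, hj, hz'⟩
  have h1 := Built.succ h0 z1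
  rw [Fam_union (by norm_num)] at h1
  exact ⟨_, Built.succ h1 z2⟩

/-- the identification of `ℂ` with the Euclidean plane -/
noncomputable def eC : ℂ ≃ₗᵢ[ℝ] EuclideanSpace ℝ (Fin 2) := Complex.orthonormalBasisOneI.repr

/-- Some convex polygon can be surrounded by two, but not by three, successive zones; so `R` is not
contained in `{1}`. -/
theorem result : 2 ∈ R ∧ ¬ (R ⊆ {1}) := by
  have h2 : 2 ∈ R := by
    refine ⟨by norm_num, eC '' Pent, ⟨⟨eC '' ((Finset.univ.image vtx : Finset ℂ) : Set ℂ),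
      (Finset.finite_toSet _).image _, ?_⟩, ?_⟩, ?_, ?_⟩
    · rw [Pent_eq_hull]
      exact (eC.toLinearEquiv.toLinearMap.image_convexHull _)
    · rw [int_image]
      exact Pent_interior.image _
    · obtain ⟨U, hU⟩ := lower
      exact ⟨_, hU.transport eC⟩
    · rintro ⟨U, hU⟩
      have h3 := hU.transport eC.symm
      have e : eC.symm '' (eC '' Pent) = Pent := by
        rw [image_image]; simp
      rw [e] at h3
      exact upper ⟨_, h3⟩
  refine ⟨h2, fun h => ?_⟩
  have := h h2
  simp at this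

end Main

end Pool.Agent.Results.MP_270077_co.HeeschTwo
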